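import Mathlib

set_option autoImplicit false
open MeasureTheory Filter Topology Set
open scoped NNReal ENNReal

namespace Pool.Agent.Results.MP_9da05b_an.PointwiseLKFails

/-- Comparison functions of class K. -/
def ClassK (a : ℝ≥0 → ℝ≥0) : Prop := Continuous a ∧ StrictMono a ∧ a 0 = 0

/-- Comparison functions of class K-infinity. -/
def ClassKinf (a : ℝ≥0 → ℝ≥0) : Prop := ClassK a ∧ Tendsto a atTop atTop

/-- Comparison functions of class KL. -/
def ClassKL (β : ℝ≥0 → ℝ≥0 → ℝ≥0) : Prop :=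
  Continuous (fun p : ℝ≥0 × ℝ≥0 => β p.1 p.2) ∧ (∀ t, ClassK (fun r => β r t)) ∧
    ∀ r, Antitone (β r) ∧ Tendsto (β r) atTop (𝓝 0)

/-- The state space `C([-Td, 0], R^n)` with the sup norm. -/
abbrev Hist (Td : ℝ) (n : ℕ) := C(Set.Icc (-Td) (0 : ℝ), EuclideanSpace ℝ (Fin n))

variable {Td : ℝ} {n m : ℕ}

/-- `val hT x s` is `x(s)` for `s` in `[-Td, 0]`. -/
noncomputable def val (hT : 0 < Td) (x : Hist Td n) (s : ℝ) : EuclideanSpace ℝ (Fin n) :=
  x (Set.projIcc (-Td) 0 (by linarith) s)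

/-- Standing assumptions on the right-hand side `f`. -/
structure AdmissibleRHS
    (f : Hist Td n → EuclideanSpace ℝ (Fin m) → EuclideanSpace ℝ (Fin n)) : Prop where
  cont : Continuous (fun p : Hist Td n × EuclideanSpace ℝ (Fin m) => f p.1 p.2)
  lip : ∀ R : ℝ, ∃ L : ℝ, ∀ x z : Hist Td n, ‖x‖ ≤ R → ‖z‖ ≤ R →
    ∀ v : EuclideanSpace ℝ (Fin m), ‖v‖ ≤ R → ‖f x v - f z v‖ ≤ L * ‖x - z‖
  zero : f 0 0 = 0

/-- `Φ` is the state trajectory on `[0, b)` of `x'(t) = f(x_t, u(t))` with initial state `x0`. -/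
structure IsSolution (hT : 0 < Td)
    (f : Hist Td n → EuclideanSpace ℝ (Fin m) → EuclideanSpace ℝ (Fin n))
    (x0 : Hist Td n) (u : ℝ → EuclideanSpace ℝ (Fin m)) (b : EReal) (Φ : ℝ → Hist Td n) :
    Prop where
  init : Φ 0 = x0
  shift : ∀ t : ℝ, 0 ≤ t → (t : EReal) < b → ∀ s ∈ Set.Icc (-Td) 0,
    val hT (Φ t) s = if 0 ≤ t + s then val hT (Φ (t + s)) 0 else val hT x0 (t + s)
  integrable : ∀ t : ℝ, 0 ≤ t → (t : EReal) < b →
    IntervalIntegrable (fun τ => f (Φ τ) (u τ)) volume 0 t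
  eqn : ∀ t : ℝ, 0 ≤ t → (t : EReal) < b →
    val hT (Φ t) 0 = val hT x0 0 + ∫ τ in (0 : ℝ)..t, f (Φ τ) (u τ)

/-- Input-to-state stability. -/
def ISS (hT : 0 < Td)
    (f : Hist Td n → EuclideanSpace ℝ (Fin m) → EuclideanSpace ℝ (Fin n)) : Prop :=
  ∃ (β : ℝ≥0 → ℝ≥0 → ℝ≥0) (γ : ℝ≥0 → ℝ≥0), ClassKL β ∧ ClassKinf γ ∧
    ∀ (x0 : Hist Td n) (u : ℝ → EuclideanSpace ℝ (Fin m)),
      MemLp u ⊤ (volume.restrict (Set.Ici (0 : ℝ))) →
      (∃ Φ, IsSolution hT f x0 u ⊤ Φ) ∧
      ∀ Φ, IsSolution hT f x0 u ⊤ Φ → ∀ t : ℝ≥0,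
        ‖val hT (Φ t) 0‖₊ ≤ β ‖x0‖₊ t +
          γ (eLpNorm u ⊤ (volume.restrict (Set.Ici (0 : ℝ)))).toNNReal

lemma val_continuous (hT : 0 < Td) (x : Hist Td n) : Continuous (val hT x) :=
  x.continuous.comp continuous_projIcc

/-- The state `φ*(t, x, v)`: `x(s + t)` for `s ≤ -t` and `x(0) + (t + s) f(x, v)` for `s ≥ -t`. -/
noncomputable def driverShift (hT : 0 < Td)
    (f : Hist Td n → EuclideanSpace ℝ (Fin m) → EuclideanSpace ℝ (Fin n))
    (t : ℝ) (x : Hist Td n) (v : EuclideanSpace ℝ (Fin m)) : Hist Td n :=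
  ⟨fun s => val hT x (t + s) + max 0 (t + (s : ℝ)) • f x v, by
    have := val_continuous hT x
    fun_prop⟩

/-- The Driver derivative, valued in the extended reals. -/
noncomputable def driverDeriv (hT : 0 < Td)
    (f : Hist Td n → EuclideanSpace ℝ (Fin m) → EuclideanSpace ℝ (Fin n))
    (V : Hist Td n → ℝ) (x : Hist Td n) (v : EuclideanSpace ℝ (Fin m)) : EReal :=
  limsup (fun t : ℝ => (((V (driverShift hT f t x v) - V x) / t : ℝ) : EReal)) (𝓝[>] 0)

/-- The upper right Dini derivative. -/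
noncomputable def upperDini (w : ℝ → ℝ) (t : ℝ) : EReal :=
  limsup (fun h : ℝ => (((w (t + h) - w t) / h : ℝ) : EReal)) (𝓝[>] 0)

/-- The regularity condition on `V`: along every solution on an interval `[0, b)` the function
`w(t) = V(x_t)` is locally absolutely continuous, and its upper right Dini derivative is the Driver
derivative for the input value `u(t)`, for almost every `t` and also for every `t` at which `u` is
continuous from the right. -/
def RegularAlong (hT : 0 < Td)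
    (f : Hist Td n → EuclideanSpace ℝ (Fin m) → EuclideanSpace ℝ (Fin n))
    (V : Hist Td n → ℝ) : Prop :=
  ∀ (x0 : Hist Td n) (u : ℝ → EuclideanSpace ℝ (Fin m)) (b : EReal) (Φ : ℝ → Hist Td n),
    MemLp u ⊤ (volume.restrict (Set.Ici (0 : ℝ))) → IsSolution hT f x0 u b Φ →
    (∀ c : ℝ, 0 ≤ c → (c : EReal) < b →
      AbsolutelyContinuousOnInterval (fun t => V (Φ t)) 0 c) ∧
    (∀ᵐ t : ℝ, 0 ≤ t → (t : EReal) < b →
      upperDini (fun s => V (Φ s)) t = driverDeriv hT f V (Φ t) (u t)) ∧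
    ∀ t : ℝ, 0 ≤ t → (t : EReal) < b → ContinuousWithinAt u (Set.Ici t) t →
      upperDini (fun s => V (Φ s)) t = driverDeriv hT f V (Φ t) (u t)

/-- `V` satisfies all the weakened hypotheses of the question. -/
def RelaxedLK (hT : 0 < Td)
    (f : Hist Td n → EuclideanSpace ℝ (Fin m) → EuclideanSpace ℝ (Fin n))
    (V : Hist Td n → ℝ) : Prop :=
  Continuous V ∧ (∀ x, 0 ≤ V x) ∧ RegularAlong hT f V ∧
  (∃ ψ₁ ψ₂ : ℝ≥0 → ℝ≥0, ClassKinf ψ₁ ∧ ClassKinf ψ₂ ∧
    ∀ x, ((ψ₁ ‖val hT x 0‖₊ : ℝ≥0) : ℝ) ≤ V x ∧ V x ≤ ((ψ₂ ‖x‖₊ : ℝ≥0) : ℝ)) ∧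
  (∃ α χ : ℝ≥0 → ℝ≥0, ClassKinf α ∧ ClassK χ ∧
    ∀ x v, χ ‖v‖₊ ≤ ‖val hT x 0‖₊ →
      driverDeriv hT f V x v ≤ ((-((α ‖val hT x 0‖₊ : ℝ≥0) : ℝ) : ℝ) : EReal))

/-! ### Elementary facts -/

lemma val_norm_le (hT : 0 < Td) (x : Hist Td n) (s : ℝ) : ‖val hT x s‖ ≤ ‖x‖ :=
  x.norm_coe_le_norm _

lemma val_sub_norm_le (hT : 0 < Td) (x z : Hist Td n) (s : ℝ) :
    ‖val hT x s - val hT z s‖ ≤ ‖x - z‖ :=
  (x - z).norm_coe_le_norm (Set.projIcc (-Td) 0 (by linarith) s)

lemma val_neg (hT : 0 < Td) (x : Hist Td n) (s : ℝ) : val hT (-x) s = -val hT x s := rfl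

lemma norm_le_of_val (hT : 0 < Td) (x : Hist Td n) (C : ℝ) (hC : 0 ≤ C)
    (h : ∀ s ∈ Set.Icc (-Td) 0, ‖val hT x s‖ ≤ C) : ‖x‖ ≤ C := by
  rw [ContinuousMap.norm_le _ hC]
  intro s
  have := h s s.2
  unfold val at this
  rwa [Set.projIcc_val] at this

lemma val_of_nonneg (hT : 0 < Td) (x : Hist Td n) (s : ℝ) (hs : 0 ≤ s) :
    val hT x s = val hT x 0 := by
  unfold val
  rw [Set.projIcc_of_right_le _ hs, Set.projIcc_of_right_le _ le_rfl]

lemma val_of_le (hT : 0 < Td) (x : Hist Td n) (s : ℝ) (hs : s ≤ -Td) :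
    val hT x s = val hT x (-Td) := by
  unfold val
  rw [Set.projIcc_of_le_left _ hs, Set.projIcc_of_le_left _ le_rfl]

lemma val_driverShift (hT : 0 < Td)
    (f : Hist Td n → EuclideanSpace ℝ (Fin m) → EuclideanSpace ℝ (Fin n))
    (t : ℝ) (x : Hist Td n) (v : EuclideanSpace ℝ (Fin m)) (s : ℝ) (hs : s ∈ Set.Icc (-Td) 0) :
    val hT (driverShift hT f t x v) s = val hT x (t + s) + max 0 (t + s) • f x v := by
  conv_lhs => unfold val
  rw [Set.projIcc_of_mem _ hs]
  rfl

/-- clipping to `[0,1]` -/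
noncomputable def clip (r : ℝ) : ℝ := max 0 (min 1 r)

lemma clip_nonneg (r : ℝ) : 0 ≤ clip r := le_max_left _ _
lemma clip_le_one (r : ℝ) : clip r ≤ 1 := max_le zero_le_one (min_le_left _ _)
lemma clip_of_one_le {r : ℝ} (h : 1 ≤ r) : clip r = 1 := by
  unfold clip; rw [min_eq_left h]; exact max_eq_right zero_le_one
lemma clip_of_nonpos {r : ℝ} (h : r ≤ 0) : clip r = 0 := by
  unfold clip; exact max_eq_left ((min_le_right _ _).trans h)
lemma clip_mono {r s : ℝ} (h : r ≤ s) : clip r ≤ clip s := by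
  unfold clip; gcongr
lemma clip_lip (r s : ℝ) : |clip r - clip s| ≤ |r - s| := by
  unfold clip
  refine (abs_max_sub_max_le_max _ _ _ _).trans ?_
  rw [sub_self, abs_zero]
  refine max_le (abs_nonneg _) ?_
  refine (abs_min_sub_min_le_max _ _ _ _).trans ?_
  rw [sub_self, abs_zero]
  exact max_le (abs_nonneg _) le_rfl
lemma clip_continuous : Continuous clip := by unfold clip; fun_prop

/-- first basis vector -/
noncomputable def e0 (hn : 0 < n) : EuclideanSpace ℝ (Fin n) :=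
  EuclideanSpace.single ⟨0, hn⟩ (1 : ℝ)

lemma norm_e0 (hn : 0 < n) : ‖e0 hn‖ = 1 := by simp [e0]

/-- first coordinate -/
def co (hn : 0 < n) (p : EuclideanSpace ℝ (Fin n)) : ℝ := p ⟨0, hn⟩

lemma co_add (hn : 0 < n) (p q : EuclideanSpace ℝ (Fin n)) : co hn (p + q) = co hn p + co hn q := rfl
lemma co_sub (hn : 0 < n) (p q : EuclideanSpace ℝ (Fin n)) : co hn (p - q) = co hn p - co hn q := rfl
lemma co_neg (hn : 0 < n) (p : EuclideanSpace ℝ (Fin n)) : co hn (-p) = -co hn p := rfl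
lemma co_smul (hn : 0 < n) (a : ℝ) (p : EuclideanSpace ℝ (Fin n)) : co hn (a • p) = a * co hn p := rfl
lemma co_e0 (hn : 0 < n) : co hn (e0 hn) = 1 := by simp [co, e0]
lemma co_abs_le (hn : 0 < n) (p : EuclideanSpace ℝ (Fin n)) : |co hn p| ≤ ‖p‖ :=
  PiLp.norm_apply_le p _
lemma co_continuous (hn : 0 < n) : Continuous (co hn) := by unfold co; fun_prop

/-- the other coordinates -/
noncomputable def rest (hn : 0 < n) (p : EuclideanSpace ℝ (Fin n)) : EuclideanSpace ℝ (Fin n) :=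
  p - co hn p • e0 hn

lemma rest_add (hn : 0 < n) (p q : EuclideanSpace ℝ (Fin n)) :
    rest hn (p + q) = rest hn p + rest hn q := by
  unfold rest; rw [co_add, add_smul]; abel
lemma rest_sub (hn : 0 < n) (p q : EuclideanSpace ℝ (Fin n)) :
    rest hn (p - q) = rest hn p - rest hn q := by
  unfold rest; rw [co_sub, sub_smul]; abel
lemma rest_neg (hn : 0 < n) (p : EuclideanSpace ℝ (Fin n)) : rest hn (-p) = -rest hn p := by
  unfold rest; rw [co_neg, neg_smul]; abel
lemma rest_smul (hn : 0 < n) (a : ℝ) (p : EuclideanSpace ℝ (Fin n)) :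
    rest hn (a • p) = a • rest hn p := by
  unfold rest; rw [co_smul, smul_sub, smul_smul]
lemma rest_e0 (hn : 0 < n) : rest hn (e0 hn) = 0 := by
  unfold rest; rw [co_e0, one_smul, sub_self]
lemma rest_norm_le (hn : 0 < n) (p : EuclideanSpace ℝ (Fin n)) : ‖rest hn p‖ ≤ 2 * ‖p‖ := by
  unfold rest
  refine (norm_sub_le _ _).trans ?_
  rw [norm_smul, norm_e0, mul_one, Real.norm_eq_abs]
  linarith [co_abs_le hn p]
lemma norm_le_co_rest (hn : 0 < n) (p : EuclideanSpace ℝ (Fin n)) :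
    ‖p‖ ≤ |co hn p| + ‖rest hn p‖ := by
  have h : p = co hn p • e0 hn + rest hn p := by unfold rest; abel
  calc ‖p‖ = ‖co hn p • e0 hn + rest hn p‖ := by rw [← h]
    _ ≤ ‖co hn p • e0 hn‖ + ‖rest hn p‖ := norm_add_le _ _
    _ = |co hn p| + ‖rest hn p‖ := by rw [norm_smul, norm_e0, mul_one, Real.norm_eq_abs]
lemma rest_lip (hn : 0 < n) (p q : EuclideanSpace ℝ (Fin n)) :
    |‖rest hn p‖ - ‖rest hn q‖| ≤ 2 * ‖p - q‖ := by
  refine (abs_norm_sub_norm_le _ _).trans ?_
  rw [← rest_sub]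
  exact rest_norm_le hn _
lemma co_lip (hn : 0 < n) (p q : EuclideanSpace ℝ (Fin n)) :
    |co hn p - co hn q| ≤ ‖p - q‖ := by
  rw [← co_sub]; exact co_abs_le hn _
lemma rest_continuous (hn : 0 < n) : Continuous (rest hn) := by
  unfold rest
  have := co_continuous hn
  fun_prop

/-- the switching factor -/
noncomputable def mu (hn : 0 < n) (p : EuclideanSpace ℝ (Fin n)) (v : EuclideanSpace ℝ (Fin m)) :
    ℝ := clip (2 * ‖v‖ - 1) * clip (1 - ‖rest hn p‖)

lemma mu_nonneg (hn : 0 < n) (p : EuclideanSpace ℝ (Fin n)) (v : EuclideanSpace ℝ (Fin m)) :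
    0 ≤ mu hn p v := mul_nonneg (clip_nonneg _) (clip_nonneg _)
lemma mu_le_one (hn : 0 < n) (p : EuclideanSpace ℝ (Fin n)) (v : EuclideanSpace ℝ (Fin m)) :
    mu hn p v ≤ 1 := mul_le_one₀ (clip_le_one _) (clip_nonneg _) (clip_le_one _)
lemma mu_neg (hn : 0 < n) (p : EuclideanSpace ℝ (Fin n)) (v : EuclideanSpace ℝ (Fin m)) :
    mu hn (-p) v = mu hn p v := by unfold mu; rw [rest_neg, norm_neg]
lemma mu_lip (hn : 0 < n) (p q : EuclideanSpace ℝ (Fin n)) (v : EuclideanSpace ℝ (Fin m)) :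
    |mu hn p v - mu hn q v| ≤ 2 * ‖p - q‖ := by
  unfold mu
  rw [← mul_sub, abs_mul, abs_of_nonneg (clip_nonneg _)]
  have h1 : |clip (1 - ‖rest hn p‖) - clip (1 - ‖rest hn q‖)| ≤ 2 * ‖p - q‖ := by
    refine (clip_lip _ _).trans ?_
    have : (1 - ‖rest hn p‖) - (1 - ‖rest hn q‖) = -(‖rest hn p‖ - ‖rest hn q‖) := by ring
    rw [this, abs_neg]
    exact rest_lip hn p q
  calc clip (2 * ‖v‖ - 1) * |clip (1 - ‖rest hn p‖) - clip (1 - ‖rest hn q‖)|
      ≤ 1 * (2 * ‖p - q‖) := mul_le_mul (clip_le_one _) h1 (abs_nonneg _) zero_le_one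
    _ = 2 * ‖p - q‖ := one_mul _
lemma mu_continuous (hn : 0 < n) : Continuous (fun q : EuclideanSpace ℝ (Fin n) ×
    EuclideanSpace ℝ (Fin m) => mu hn q.1 q.2) := by
  unfold mu
  have h1 := clip_continuous
  have h2 := rest_continuous hn
  fun_prop

/-- the right-hand side with gain `B` -/
noncomputable def rhs (hT : 0 < Td) (hn : 0 < n) (B : ℝ)
    (x : Hist Td n) (v : EuclideanSpace ℝ (Fin m)) : EuclideanSpace ℝ (Fin n) :=
  (1 / Td) • (-(val hT x 0) - (B * mu hn (val hT x 0) v * co hn (val hT x (-Td))) • e0 hn)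

lemma val_eval_continuous (hT : 0 < Td) (s : ℝ) : Continuous (fun x : Hist Td n => val hT x s) := by
  unfold val
  exact continuous_eval_const _

lemma rhs_neg (hT : 0 < Td) (hn : 0 < n) (B : ℝ) (x : Hist Td n) (v : EuclideanSpace ℝ (Fin m)) :
    rhs hT hn B (-x) v = -rhs hT hn B x v := by
  unfold rhs
  rw [val_neg, val_neg, mu_neg, co_neg, ← smul_neg]
  congr 1
  rw [mul_neg, neg_smul]
  abel

lemma rhs_norm_le (hT : 0 < Td) (hn : 0 < n) (B : ℝ) (hB : 0 ≤ B) (x : Hist Td n)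
    (v : EuclideanSpace ℝ (Fin m)) : ‖rhs hT hn B x v‖ ≤ (1 / Td) * ((1 + B) * ‖x‖) := by
  unfold rhs
  rw [norm_smul, Real.norm_eq_abs, abs_of_pos (by positivity)]
  gcongr
  refine (norm_sub_le _ _).trans ?_
  rw [norm_neg, norm_smul, norm_e0, mul_one, Real.norm_eq_abs, abs_mul, abs_mul, abs_of_nonneg hB,
    abs_of_nonneg (mu_nonneg _ _ _)]
  have h1 := val_norm_le hT x 0
  have h2 := (co_abs_le hn (val hT x (-Td))).trans (val_norm_le hT x (-Td))
  have h3 := mu_le_one hn (val hT x 0) v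
  have h4 := mu_nonneg hn (val hT x 0) v
  have h5 : B * mu hn (val hT x 0) v * |co hn (val hT x (-Td))| ≤ B * 1 * ‖x‖ := by gcongr
  linarith


lemma rhs_zero (hT : 0 < Td) (hn : 0 < n) (B : ℝ) :
    rhs (m := m) hT hn B 0 0 = 0 := by
  unfold rhs
  have h1 : ∀ s, val hT (0 : Hist Td n) s = 0 := fun s => rfl
  have h2 : co hn (0 : EuclideanSpace ℝ (Fin n)) = 0 := rfl
  rw [h1, h1, h2, mul_zero, zero_smul, neg_zero, sub_zero, smul_zero]

lemma rhs_cont (hT : 0 < Td) (hn : 0 < n) (B : ℝ) :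
    Continuous (fun p : Hist Td n × EuclideanSpace ℝ (Fin m) => rhs hT hn B p.1 p.2) := by
  unfold rhs
  have h1 := val_eval_continuous (n := n) hT 0
  have h2 := val_eval_continuous (n := n) hT (-Td)
  have h3 := co_continuous hn
  have h6 : Continuous (fun p : Hist Td n × EuclideanSpace ℝ (Fin m) =>
      val hT p.1 0) := h1.comp continuous_fst
  have h8 : Continuous (fun p : Hist Td n × EuclideanSpace ℝ (Fin m) =>
      clip (1 - ‖rest hn (val hT p.1 0)‖)) :=
    clip_continuous.comp (continuous_const.sub ((rest_continuous hn).comp h6).norm)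
  have h9 : Continuous (fun p : Hist Td n × EuclideanSpace ℝ (Fin m) =>
      clip (2 * ‖p.2‖ - 1)) :=
    clip_continuous.comp ((continuous_const.mul continuous_snd.norm).sub continuous_const)
  have h4 : Continuous (fun p : Hist Td n × EuclideanSpace ℝ (Fin m) =>
      mu hn (val hT p.1 0) p.2) := h9.mul h8
  have h5 : Continuous (fun p : Hist Td n × EuclideanSpace ℝ (Fin m) =>
      co hn (val hT p.1 (-Td))) := h3.comp (h2.comp continuous_fst)
  exact Continuous.const_smul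
    ((h6.neg).sub (((continuous_const.mul h4).mul h5).smul continuous_const)) (1 / Td)

lemma rhs_lip (hT : 0 < Td) (hn : 0 < n) (B : ℝ) (hB : 0 ≤ B) : ∀ R : ℝ, ∃ L : ℝ,
    ∀ x z : Hist Td n, ‖x‖ ≤ R → ‖z‖ ≤ R →
    ∀ v : EuclideanSpace ℝ (Fin m), ‖v‖ ≤ R →
    ‖rhs hT hn B x v - rhs hT hn B z v‖ ≤ L * ‖x - z‖ := by
  intro R
  refine ⟨(1 / Td) * (1 + B * (2 * R + 1)), fun x z hx hz v _ => ?_⟩
  unfold rhs
  have hT1 : 0 < 1 / Td := by positivity
  rw [← smul_sub, norm_smul, Real.norm_eq_abs, abs_of_pos hT1, mul_assoc (1 / Td)]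
  refine mul_le_mul_of_nonneg_left ?_ hT1.le
  have e : (-(val hT x 0) - (B * mu hn (val hT x 0) v * co hn (val hT x (-Td))) • e0 hn) -
      (-(val hT z 0) - (B * mu hn (val hT z 0) v * co hn (val hT z (-Td))) • e0 hn) =
      -(val hT x 0 - val hT z 0) - (B * (mu hn (val hT x 0) v * co hn (val hT x (-Td)) -
        mu hn (val hT z 0) v * co hn (val hT z (-Td)))) • e0 hn := by
    rw [mul_sub, sub_smul, mul_assoc, mul_assoc]
    abel
  rw [e]
  refine (norm_sub_le _ _).trans ?_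
  rw [norm_neg, norm_smul, norm_e0, mul_one, Real.norm_eq_abs, abs_mul, abs_of_nonneg hB]
  have h1 := val_sub_norm_le hT x z 0
  have h2 : |mu hn (val hT x 0) v * co hn (val hT x (-Td)) -
        mu hn (val hT z 0) v * co hn (val hT z (-Td))| ≤ (2 * R + 1) * ‖x - z‖ := by
    have e2 : mu hn (val hT x 0) v * co hn (val hT x (-Td)) -
        mu hn (val hT z 0) v * co hn (val hT z (-Td)) =
        (mu hn (val hT x 0) v - mu hn (val hT z 0) v) * co hn (val hT x (-Td)) +
        mu hn (val hT z 0) v * (co hn (val hT x (-Td)) - co hn (val hT z (-Td))) := by ring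
    rw [e2]
    refine (abs_add_le _ _).trans ?_
    rw [abs_mul, abs_mul, abs_of_nonneg (mu_nonneg hn (val hT z 0) v)]
    have h3 : |mu hn (val hT x 0) v - mu hn (val hT z 0) v| ≤ 2 * ‖x - z‖ :=
      (mu_lip hn _ _ v).trans (by gcongr)
    have h4 : |co hn (val hT x (-Td))| ≤ R :=
      ((co_abs_le hn _).trans (val_norm_le hT x _)).trans hx
    have h5 : |co hn (val hT x (-Td)) - co hn (val hT z (-Td))| ≤ ‖x - z‖ :=
      (co_lip hn _ _).trans (val_sub_norm_le hT x z _)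
    have h6 := mu_le_one hn (val hT z 0) v
    have h7 := mu_nonneg hn (val hT z 0) v
    have h8 : |mu hn (val hT x 0) v - mu hn (val hT z 0) v| * |co hn (val hT x (-Td))| ≤
        (2 * ‖x - z‖) * R := by gcongr
    have h9 : mu hn (val hT z 0) v * |co hn (val hT x (-Td)) - co hn (val hT z (-Td))| ≤
        1 * ‖x - z‖ := by gcongr
    linarith
  have h10 : B * |mu hn (val hT x 0) v * co hn (val hT x (-Td)) -
        mu hn (val hT z 0) v * co hn (val hT z (-Td))| ≤ B * ((2 * R + 1) * ‖x - z‖) := by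
    gcongr
  linarith

lemma rhs_admissible (hT : 0 < Td) (hn : 0 < n) (B : ℝ) (hB : 0 ≤ B) :
    AdmissibleRHS (m := m) (rhs hT hn B) :=
  ⟨rhs_cont hT hn B, rhs_lip hT hn B hB, rhs_zero hT hn B⟩

/-! ### The functional -/

/-- the algebraic form of the functional -/
noncomputable def W (Td : ℝ) (hn : 0 < n) (B : ℝ) (p : EuclideanSpace ℝ (Fin n)) (j1 j2 : ℝ) : ℝ :=
  |co hn p| + ‖rest hn p‖ + (B / Td) * (clip (2 * co hn p) * j1 + clip (-(2 * co hn p)) * j2)

/-- integral of the negative part of the first coordinate -/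
noncomputable def Jm (hT : 0 < Td) (hn : 0 < n) (x : Hist Td n) : ℝ :=
  ∫ s in (-Td)..0, max 0 (-(co hn (val hT x s)))

/-- the functional -/
noncomputable def Vf (hT : 0 < Td) (hn : 0 < n) (B : ℝ) (x : Hist Td n) : ℝ :=
  W Td hn B (val hT x 0) (Jm hT hn x) (Jm hT hn (-x))

lemma W_neg (Td : ℝ) (hn : 0 < n) (B : ℝ) (p : EuclideanSpace ℝ (Fin n)) (j1 j2 : ℝ) :
    W Td hn B (-p) j2 j1 = W Td hn B p j1 j2 := by
  unfold W
  rw [co_neg, abs_neg, rest_neg, norm_neg]
  have h1 : 2 * -co hn p = -(2 * co hn p) := by ring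
  have h2 : -(2 * -co hn p) = 2 * co hn p := by ring
  rw [h1, neg_neg]
  ring

lemma Vf_neg (hT : 0 < Td) (hn : 0 < n) (B : ℝ) (x : Hist Td n) :
    Vf hT hn B (-x) = Vf hT hn B x := by
  unfold Vf
  rw [neg_neg, val_neg, W_neg]

lemma Jm_integrand_cont (hT : 0 < Td) (hn : 0 < n) (x : Hist Td n) :
    Continuous (fun s => max 0 (-(co hn (val hT x s)))) :=
  continuous_const.max ((co_continuous hn).comp (val_continuous hT x)).neg

lemma Jm_nonneg (hT : 0 < Td) (hn : 0 < n) (x : Hist Td n) : 0 ≤ Jm hT hn x := by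
  unfold Jm
  apply intervalIntegral.integral_nonneg (by linarith)
  intro s _
  exact le_max_left _ _

lemma Jm_lip (hT : 0 < Td) (hn : 0 < n) (x z : Hist Td n) :
    |Jm hT hn x - Jm hT hn z| ≤ Td * ‖x - z‖ := by
  unfold Jm
  rw [← intervalIntegral.integral_sub ((Jm_integrand_cont hT hn x).intervalIntegrable _ _)
    ((Jm_integrand_cont hT hn z).intervalIntegrable _ _)]
  have h := intervalIntegral.norm_integral_le_of_norm_le_const
    (f := fun s => max 0 (-(co hn (val hT x s))) - max 0 (-(co hn (val hT z s))))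
    (a := -Td) (b := 0) (C := ‖x - z‖) (by
      intro s _
      rw [Real.norm_eq_abs]
      refine (abs_max_sub_max_le_max _ _ _ _).trans ?_
      rw [sub_self, abs_zero]
      refine max_le (norm_nonneg _) ?_
      have : -(co hn (val hT x s)) - -(co hn (val hT z s)) =
        -(co hn (val hT x s) - co hn (val hT z s)) := by ring
      rw [this, abs_neg]
      exact (co_lip hn _ _).trans (val_sub_norm_le hT x z s))
  rw [Real.norm_eq_abs] at h
  refine h.trans (le_of_eq ?_)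
  rw [zero_sub, neg_neg, abs_of_pos hT, mul_comm]

lemma Jm_zero (hT : 0 < Td) (hn : 0 < n) : Jm hT hn (0 : Hist Td n) = 0 := by
  unfold Jm
  have h1 : ∀ s, val hT (0 : Hist Td n) s = 0 := fun s => rfl
  have h2 : co hn (0 : EuclideanSpace ℝ (Fin n)) = 0 := rfl
  simp only [h1, h2, neg_zero, max_self, intervalIntegral.integral_zero]

lemma Jm_abs_le (hT : 0 < Td) (hn : 0 < n) (x : Hist Td n) : |Jm hT hn x| ≤ Td * ‖x‖ := by
  have := Jm_lip hT hn x 0
  rwa [Jm_zero, sub_zero, sub_zero] at this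

lemma Jm_continuous (hT : 0 < Td) (hn : 0 < n) : Continuous (Jm hT hn) := by
  have : LipschitzWith (Real.toNNReal Td) (Jm hT hn) := by
    apply LipschitzWith.of_dist_le_mul
    intro x z
    rw [Real.dist_eq, dist_eq_norm, Real.coe_toNNReal _ hT.le]
    exact Jm_lip hT hn x z
  exact this.continuous

lemma Vf_continuous (hT : 0 < Td) (hn : 0 < n) (B : ℝ) : Continuous (Vf hT hn B) := by
  unfold Vf W
  have h1 : Continuous (fun x : Hist Td n => co hn (val hT x 0)) :=
    (co_continuous hn).comp (val_eval_continuous hT 0)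
  have h2 : Continuous (fun x : Hist Td n => ‖rest hn (val hT x 0)‖) :=
    ((rest_continuous hn).comp (val_eval_continuous hT 0)).norm
  have h3 := Jm_continuous hT hn
  have h4 : Continuous (fun x : Hist Td n => Jm hT hn (-x)) := h3.comp continuous_neg
  have h5 : Continuous (fun x : Hist Td n => clip (2 * co hn (val hT x 0))) :=
    clip_continuous.comp (continuous_const.mul h1)
  have h6 : Continuous (fun x : Hist Td n => clip (-(2 * co hn (val hT x 0)))) :=
    clip_continuous.comp (continuous_const.mul h1).neg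
  exact (h1.abs.add h2).add (continuous_const.mul ((h5.mul h3).add (h6.mul h4)))

lemma W_lip (hT : 0 < Td) (hn : 0 < n) (B : ℝ) (hB : 0 ≤ B) (p q : EuclideanSpace ℝ (Fin n))
    (j1 j2 k1 k2 K : ℝ) (h1 : |j1| ≤ K) (h2 : |j2| ≤ K) :
    |W Td hn B p j1 j2 - W Td hn B q k1 k2| ≤
      3 * ‖p - q‖ + (B / Td) * (4 * K * ‖p - q‖ + |j1 - k1| + |j2 - k2|) := by
  unfold W
  have hBT : 0 ≤ B / Td := by positivity
  have e : |co hn p| + ‖rest hn p‖ +
      B / Td * (clip (2 * co hn p) * j1 + clip (-(2 * co hn p)) * j2) -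
      (|co hn q| + ‖rest hn q‖ +
      B / Td * (clip (2 * co hn q) * k1 + clip (-(2 * co hn q)) * k2)) =
      (|co hn p| - |co hn q|) + (‖rest hn p‖ - ‖rest hn q‖) +
      B / Td * (((clip (2 * co hn p) - clip (2 * co hn q)) * j1 +
        (clip (-(2 * co hn p)) - clip (-(2 * co hn q))) * j2) +
        (clip (2 * co hn q) * (j1 - k1) + clip (-(2 * co hn q)) * (j2 - k2))) := by ring
  rw [e]
  have a1 : |(|co hn p| - |co hn q|)| ≤ ‖p - q‖ :=
    (abs_abs_sub_abs_le_abs_sub _ _).trans (co_lip hn p q)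
  have a2 := rest_lip hn p q
  have a3 : |clip (2 * co hn p) - clip (2 * co hn q)| ≤ 2 * ‖p - q‖ := by
    refine (clip_lip _ _).trans ?_
    rw [← mul_sub, abs_mul, abs_of_pos (by norm_num : (0 : ℝ) < 2)]
    have := co_lip hn p q
    linarith
  have a4 : |clip (-(2 * co hn p)) - clip (-(2 * co hn q))| ≤ 2 * ‖p - q‖ := by
    refine (clip_lip _ _).trans ?_
    have : -(2 * co hn p) - -(2 * co hn q) = -(2 * (co hn p - co hn q)) := by ring
    rw [this, abs_neg, abs_mul, abs_of_pos (by norm_num : (0 : ℝ) < 2)]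
    have := co_lip hn p q
    linarith
  have a5 : |(clip (2 * co hn p) - clip (2 * co hn q)) * j1| ≤ (2 * ‖p - q‖) * K := by
    rw [abs_mul]
    exact mul_le_mul a3 h1 (abs_nonneg _) (by positivity)
  have a6 : |(clip (-(2 * co hn p)) - clip (-(2 * co hn q))) * j2| ≤ (2 * ‖p - q‖) * K := by
    rw [abs_mul]
    exact mul_le_mul a4 h2 (abs_nonneg _) (by positivity)
  have a7 : |clip (2 * co hn q) * (j1 - k1)| ≤ |j1 - k1| := by
    rw [abs_mul, abs_of_nonneg (clip_nonneg _)]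
    exact mul_le_of_le_one_left (abs_nonneg _) (clip_le_one _)
  have a8 : |clip (-(2 * co hn q)) * (j2 - k2)| ≤ |j2 - k2| := by
    rw [abs_mul, abs_of_nonneg (clip_nonneg _)]
    exact mul_le_of_le_one_left (abs_nonneg _) (clip_le_one _)
  refine (abs_add_le _ _).trans ?_
  refine add_le_add ((abs_add_le _ _).trans (by linarith)) ?_
  rw [abs_mul, abs_of_nonneg hBT]
  refine mul_le_mul_of_nonneg_left ?_ hBT
  refine (abs_add_le _ _).trans ?_
  have a9 := abs_add_le ((clip (2 * co hn p) - clip (2 * co hn q)) * j1)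
    ((clip (-(2 * co hn p)) - clip (-(2 * co hn q))) * j2)
  have a10 := abs_add_le (clip (2 * co hn q) * (j1 - k1)) (clip (-(2 * co hn q)) * (j2 - k2))
  linarith

lemma Vf_lip (hT : 0 < Td) (hn : 0 < n) (B : ℝ) (hB : 0 ≤ B) (R : ℝ) (x z : Hist Td n)
    (hx : ‖x‖ ≤ R) :
    |Vf hT hn B x - Vf hT hn B z| ≤ (3 + 4 * B * R + 2 * B) * ‖x - z‖ := by
  unfold Vf
  have h1 : |Jm hT hn x| ≤ Td * R := (Jm_abs_le hT hn x).trans (by gcongr)
  have h2 : |Jm hT hn (-x)| ≤ Td * R := (Jm_abs_le hT hn (-x)).trans (by rw [norm_neg]; gcongr)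
  refine (W_lip hT hn B hB _ _ _ _ _ _ (Td * R) h1 h2).trans ?_
  have h3 := val_sub_norm_le hT x z 0
  have h4 := Jm_lip hT hn x z
  have h5 : |Jm hT hn (-x) - Jm hT hn (-z)| ≤ Td * ‖x - z‖ := by
    have := Jm_lip hT hn (-x) (-z)
    have e : -x - -z = -(x - z) := by abel
    rwa [e, norm_neg] at this
  have hR : 0 ≤ R := (norm_nonneg _).trans hx
  have hBT : 0 ≤ B / Td := by positivity
  calc 3 * ‖val hT x 0 - val hT z 0‖ + (B / Td) * (4 * (Td * R) * ‖val hT x 0 - val hT z 0‖ +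
        |Jm hT hn x - Jm hT hn z| + |Jm hT hn (-x) - Jm hT hn (-z)|)
      ≤ 3 * ‖x - z‖ + (B / Td) * (4 * (Td * R) * ‖x - z‖ + Td * ‖x - z‖ + Td * ‖x - z‖) := by
        gcongr
    _ = (3 + 4 * B * R + 2 * B) * ‖x - z‖ := by
        field_simp
        ring

lemma Vf_lower (hT : 0 < Td) (hn : 0 < n) (B : ℝ) (hB : 0 ≤ B) (x : Hist Td n) :
    ‖val hT x 0‖ ≤ Vf hT hn B x := by
  unfold Vf W
  have h1 := norm_le_co_rest hn (val hT x 0)
  have h2 := mul_nonneg (clip_nonneg (2 * co hn (val hT x 0))) (Jm_nonneg hT hn x)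
  have h3 := mul_nonneg (clip_nonneg (-(2 * co hn (val hT x 0)))) (Jm_nonneg hT hn (-x))
  have h4 : 0 ≤ B / Td * (clip (2 * co hn (val hT x 0)) * Jm hT hn x +
    clip (-(2 * co hn (val hT x 0))) * Jm hT hn (-x)) := by positivity
  linarith

lemma Vf_upper (hT : 0 < Td) (hn : 0 < n) (B : ℝ) (hB : 0 ≤ B) (x : Hist Td n) :
    Vf hT hn B x ≤ (3 + 2 * B) * ‖x‖ := by
  have h := Vf_lip hT hn B hB 0 0 x (by simp)
  have h0 : Vf hT hn B (0 : Hist Td n) = 0 := by
    unfold Vf W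
    have h1 : ∀ s, val hT (0 : Hist Td n) s = 0 := fun s => rfl
    have h2 : co hn (0 : EuclideanSpace ℝ (Fin n)) = 0 := rfl
    have h3 : rest hn (0 : EuclideanSpace ℝ (Fin n)) = 0 := by unfold rest; rw [h2]; simp
    rw [neg_zero, Jm_zero, h1, h2, h3]
    simp
  rw [h0, zero_sub, abs_neg, zero_sub, norm_neg] at h
  refine (le_abs_self _).trans (h.trans (le_of_eq ?_))
  ring

/-! ### The dissipation inequality -/

lemma driverDeriv_le (hT : 0 < Td)
    (f : Hist Td n → EuclideanSpace ℝ (Fin m) → EuclideanSpace ℝ (Fin n))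
    (V : Hist Td n → ℝ) (x : Hist Td n) (v : EuclideanSpace ℝ (Fin m)) (U : ℝ → ℝ) (D : ℝ)
    (h1 : ∀ᶠ t in 𝓝[>] (0 : ℝ), V (driverShift hT f t x v) ≤ U t) (h2 : U 0 = V x)
    (h3 : HasDerivAt U D 0) : driverDeriv hT f V x v ≤ (D : EReal) := by
  have h4 : Tendsto (fun t : ℝ => t⁻¹ • (U (0 + t) - U 0)) (𝓝[>] 0) (𝓝 D) :=
    (hasDerivAt_iff_tendsto_slope_zero.1 h3).mono_left
      (nhdsWithin_mono _ (fun t ht => (ne_of_gt ht)))
  have h5 : Tendsto (fun t : ℝ => ((t⁻¹ • (U (0 + t) - U 0) : ℝ) : EReal)) (𝓝[>] 0)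
      (𝓝 (D : EReal)) := (continuous_coe_real_ereal.tendsto D).comp h4
  rw [← h5.limsup_eq]
  unfold driverDeriv
  refine limsup_le_limsup ?_
  filter_upwards [h1, self_mem_nhdsWithin] with t ht ht0
  have ht0' : (0 : ℝ) < t := ht0
  rw [EReal.coe_le_coe_iff, zero_add, h2, smul_eq_mul, div_eq_inv_mul]
  gcongr

lemma driverShift_neg (hT : 0 < Td)
    (f : Hist Td n → EuclideanSpace ℝ (Fin m) → EuclideanSpace ℝ (Fin n))
    (hf : ∀ x v, f (-x) v = -f x v) (t : ℝ) (x : Hist Td n) (v : EuclideanSpace ℝ (Fin m)) :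
    driverShift hT f t (-x) v = -driverShift hT f t x v := by
  ext1 s
  change val hT (-x) (t + s) + max 0 (t + (s : ℝ)) • f (-x) v =
    -(val hT x (t + s) + max 0 (t + (s : ℝ)) • f x v)
  rw [hf, val_neg, smul_neg]
  abel

lemma driverDeriv_neg (hT : 0 < Td)
    (f : Hist Td n → EuclideanSpace ℝ (Fin m) → EuclideanSpace ℝ (Fin n))
    (hf : ∀ x v, f (-x) v = -f x v) (V : Hist Td n → ℝ) (hV : ∀ x, V (-x) = V x)
    (x : Hist Td n) (v : EuclideanSpace ℝ (Fin m)) :
    driverDeriv hT f V (-x) v = driverDeriv hT f V x v := by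
  unfold driverDeriv
  congr 1
  funext t
  rw [driverShift_neg hT f hf, hV, hV]

lemma window_hasDerivAt (F : ℝ → ℝ) (hF : Continuous F) :
    HasDerivAt (fun t => ∫ s in (-Td)..0, F (t + s)) (F 0 - F (-Td)) 0 := by
  have e : (fun t => ∫ s in (-Td)..0, F (t + s)) =
      fun t => (∫ s in (0 : ℝ)..t, F s) - ∫ s in (0 : ℝ)..(t + -Td), F s := by
    funext t
    rw [intervalIntegral.integral_comp_add_left (fun s => F s) t, add_zero,
      ← intervalIntegral.integral_interval_sub_left (a := 0) (b := t) (c := t + -Td)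
      (hF.intervalIntegrable _ _) (hF.intervalIntegrable _ _)]
  rw [e]
  have h1 : HasDerivAt (fun t => ∫ s in (0 : ℝ)..t, F s) (F 0) 0 :=
    intervalIntegral.integral_hasDerivAt_right (hF.intervalIntegrable _ _)
      (hF.stronglyMeasurableAtFilter _ _) hF.continuousAt
  have h2 : HasDerivAt (fun t => ∫ s in (0 : ℝ)..t, F s) (F (-Td)) (0 + -Td) := by
    have := intervalIntegral.integral_hasDerivAt_right (a := 0) (b := 0 + -Td) (f := F)
      (hF.intervalIntegrable _ _)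
      (hF.stronglyMeasurableAtFilter _ _) hF.continuousAt
    rwa [zero_add] at this ⊢
  have h3 : HasDerivAt (fun t : ℝ => t + -Td) 1 0 := (hasDerivAt_id (0 : ℝ)).add_const _
  have h4 := HasDerivAt.comp (0 : ℝ) h2 h3
  rw [mul_one] at h4
  exact h1.sub h4

lemma co_rhs (hT : 0 < Td) (hn : 0 < n) (B : ℝ) (x : Hist Td n) (v : EuclideanSpace ℝ (Fin m)) :
    co hn (rhs hT hn B x v) = (1 / Td) * (-(co hn (val hT x 0)) -
      B * mu hn (val hT x 0) v * co hn (val hT x (-Td))) := by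
  unfold rhs
  rw [co_smul, co_sub, co_neg, co_smul, co_e0, mul_one]

lemma rest_rhs (hT : 0 < Td) (hn : 0 < n) (B : ℝ) (x : Hist Td n) (v : EuclideanSpace ℝ (Fin m)) :
    rest hn (rhs hT hn B x v) = -((1 / Td) • rest hn (val hT x 0)) := by
  unfold rhs
  rw [rest_smul, rest_sub, rest_neg, rest_smul, rest_e0, smul_zero, sub_zero, smul_neg]

lemma driver_main (hT : 0 < Td) (hn : 0 < n) (B : ℝ) (hB : 0 ≤ B) (x : Hist Td n)
    (v : EuclideanSpace ℝ (Fin m)) (hr : 0 ≤ co hn (val hT x 0))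
    (hcase : 1 / 2 ≤ co hn (val hT x 0) ∨ mu hn (val hT x 0) v = 0) :
    driverDeriv hT (rhs hT hn B) (Vf hT hn B) x v ≤ ((-(‖val hT x 0‖ / Td) : ℝ) : EReal) := by
  set p := val hT x 0 with hp
  set r := co hn p with hrdef
  set q := co hn (val hT x (-Td)) with hq
  set g := co hn (rhs hT hn B x v) with hg
  have hgval : g = (1 / Td) * (-r - B * mu hn p v * q) := co_rhs hT hn B x v
  set F : ℝ → ℝ := fun s => max 0 (-(co hn (val hT x s))) with hF
  have hFc : Continuous F := Jm_integrand_cont hT hn x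
  set G : ℝ → ℝ := fun t => ∫ s in (-Td)..0, F (t + s) with hG
  have hGd : HasDerivAt G (F 0 - F (-Td)) 0 := window_hasDerivAt F hFc
  have hF0 : F 0 = 0 := by
    simp only [hF]
    exact max_eq_left (by rw [← hp, ← hrdef]; linarith)
  have hG0 : G 0 = Jm hT hn x := by
    simp only [hG, zero_add]
    rfl
  have hGnn : ∀ t, 0 ≤ G t := by
    intro t
    apply intervalIntegral.integral_nonneg (by linarith)
    intro s _
    exact le_max_left _ _
  have hmu := mu_le_one hn p v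
  have hmu0 := mu_nonneg hn p v
  set U : ℝ → ℝ := fun t => (r + t * g) + (1 - t * (1 / Td)) * ‖rest hn p‖ +
    (B / Td) * (clip (2 * r) * G t) with hU
  have hU' : HasDerivAt U ((1 * g) + (-(1 * (1 / Td))) * ‖rest hn p‖ +
      (B / Td) * (clip (2 * r) * (F 0 - F (-Td)))) 0 := by
    have a1 : HasDerivAt (fun t : ℝ => r + t * g) (1 * g) 0 :=
      ((hasDerivAt_id (0 : ℝ)).mul_const g).const_add r
    have a2 : HasDerivAt (fun t : ℝ => (1 - t * (1 / Td)) * ‖rest hn p‖)
        ((-(1 * (1 / Td))) * ‖rest hn p‖) 0 :=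
      (((hasDerivAt_id (0 : ℝ)).mul_const (1 / Td)).const_sub 1).mul_const _
    exact (a1.add a2).add ((hGd.const_mul _).const_mul _)
  have hU0 : U 0 = Vf hT hn B x := by
    simp only [hU, zero_mul, add_zero, sub_zero, one_mul]
    rw [hG0]
    unfold Vf W
    rw [← hp, ← hrdef, abs_of_nonneg hr, clip_of_nonpos (by linarith : -(2 * r) ≤ 0), zero_mul,
      add_zero]
  -- positivity of the first coordinate for small times
  have hpos : ∀ᶠ t in 𝓝[>] (0 : ℝ), 0 ≤ r + t * g ∧ clip (2 * (r + t * g)) ≤ clip (2 * r) ∧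
      ∀ τ, 0 ≤ τ → τ ≤ t → 0 ≤ r + τ * g := by
    rcases hcase with h | h
    · have hc : Tendsto (fun t : ℝ => r + t * g) (𝓝[>] 0) (𝓝 (r + 0 * g)) := by
        have : Continuous (fun t : ℝ => r + t * g) := by fun_prop
        exact (this.tendsto 0).mono_left nhdsWithin_le_nhds
      rw [zero_mul, add_zero] at hc
      have h2 := hc.eventually (lt_mem_nhds (show (0 : ℝ) < r by linarith))
      filter_upwards [h2, self_mem_nhdsWithin] with t ht ht0
      have ht0' : (0 : ℝ) < t := ht0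
      refine ⟨ht.le, ?_, ?_⟩
      · rw [clip_of_one_le (by linarith : 1 ≤ 2 * r)]
        exact clip_le_one _
      · intro τ h0 h1
        by_cases hgs : 0 ≤ g
        · have := mul_nonneg h0 hgs
          linarith
        · have : t * g ≤ τ * g := mul_le_mul_of_nonpos_right h1 (not_le.1 hgs).le
          linarith
    · have hg' : g = -(r * (1 / Td)) := by
        rw [hgval, h]
        ring
      have h1 : ∀ᶠ t in 𝓝[>] (0 : ℝ), t < Td :=
        (gt_mem_nhds hT).filter_mono nhdsWithin_le_nhds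
      filter_upwards [h1, self_mem_nhdsWithin] with t ht ht0
      have ht0' : (0 : ℝ) < t := ht0
      have key : ∀ τ, 0 ≤ τ → τ ≤ t → 0 ≤ r + τ * g := by
        intro τ h2 h3
        rw [hg']
        have h4 : τ * (1 / Td) ≤ 1 := by
          rw [mul_one_div, div_le_one hT]; linarith
        have e : r + τ * -(r * (1 / Td)) = r * (1 - τ * (1 / Td)) := by ring
        rw [e]
        exact mul_nonneg hr (by linarith)
      refine ⟨key t ht0'.le le_rfl, ?_, key⟩
      apply clip_mono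
      have : t * g ≤ 0 := by
        rw [hg']
        have : 0 ≤ t * (r * (1 / Td)) := by positivity
        linarith
      linarith
  have hsmall : ∀ᶠ t in 𝓝[>] (0 : ℝ), t < Td :=
    (gt_mem_nhds hT).filter_mono nhdsWithin_le_nhds
  have hbound : ∀ᶠ t in 𝓝[>] (0 : ℝ), Vf hT hn B (driverShift hT (rhs hT hn B) t x v) ≤ U t := by
    filter_upwards [hpos, hsmall, self_mem_nhdsWithin] with t ht htT ht0
    have ht0' : (0 : ℝ) < t := ht0
    obtain ⟨hp1, hp2, hp3⟩ := ht
    set z := driverShift hT (rhs hT hn B) t x v with hz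
    have hz0 : val hT z 0 = p + t • rhs hT hn B x v := by
      rw [hz, val_driverShift hT _ t x v 0 ⟨by linarith, le_rfl⟩, add_zero,
        val_of_nonneg hT x t ht0'.le, max_eq_right ht0'.le]
    have hJ : Jm hT hn z = G t := by
      unfold Jm
      apply intervalIntegral.integral_congr
      intro s hs
      rw [Set.uIcc_of_le (by linarith)] at hs
      simp only [hF]
      rw [hz, val_driverShift hT _ t x v s hs]
      by_cases hts : t + s ≤ 0
      · rw [max_eq_left hts, zero_smul, add_zero]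
      · push Not at hts
        rw [max_eq_right hts.le, val_of_nonneg hT x _ hts.le, co_add, co_smul]
        have h5 := hp3 (t + s) hts.le (by linarith [hs.2])
        rw [max_eq_left, max_eq_left]
        · linarith
        · linarith
    unfold Vf W
    rw [hz0, hJ, co_add, co_smul, rest_add, rest_smul, rest_rhs]
    have e1 : rest hn p + t • -((1 / Td) • rest hn p) = (1 - t * (1 / Td)) • rest hn p := by
      rw [sub_smul, one_smul, smul_neg, smul_smul, sub_eq_add_neg]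
    have h6 : 0 ≤ 1 - t * (1 / Td) := by
      have : t * (1 / Td) ≤ 1 := by rw [mul_one_div, div_le_one hT]; linarith
      linarith
    rw [e1, norm_smul, Real.norm_eq_abs, abs_of_nonneg h6, abs_of_nonneg hp1,
      clip_of_nonpos (by linarith : -(2 * (r + t * g)) ≤ 0), zero_mul, add_zero]
    have h7 : clip (2 * (r + t * g)) * G t ≤ clip (2 * r) * G t :=
      mul_le_mul_of_nonneg_right hp2 (hGnn t)
    have h8 : B / Td * (clip (2 * (r + t * g)) * G t) ≤ B / Td * (clip (2 * r) * G t) :=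
      mul_le_mul_of_nonneg_left h7 (by positivity)
    simp only [hU]
    linarith
  refine (driverDeriv_le hT _ _ x v U _ hbound hU0 hU').trans ?_
  rw [EReal.coe_le_coe_iff]
  have hnorm := norm_le_co_rest hn p
  rw [← hrdef, abs_of_nonneg hr] at hnorm
  set N := max 0 (-q) with hN
  have hFT : F (-Td) = N := rfl
  have hNq : -q ≤ N := le_max_right _ _
  have hN0 : 0 ≤ N := le_max_left _ _
  have h9 : mu hn p v * N ≤ clip (2 * r) * N := by
    rcases hcase with h | h
    · rw [clip_of_one_le (by linarith : 1 ≤ 2 * r)]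
      exact mul_le_mul_of_nonneg_right hmu hN0
    · rw [h, zero_mul]
      exact mul_nonneg (clip_nonneg _) hN0
  have h10 : -(B * mu hn p v * q) ≤ B * (mu hn p v * N) := by
    have : -(B * mu hn p v * q) = B * (mu hn p v * (-q)) := by ring
    rw [this]
    gcongr
  have h11 : B * (mu hn p v * N) ≤ B * (clip (2 * r) * N) := by gcongr
  rw [hF0, hFT, hgval]
  have e2 : 1 * (1 / Td * (-r - B * mu hn p v * q)) + -(1 * (1 / Td)) * ‖rest hn p‖ +
      B / Td * (clip (2 * r) * (0 - N)) =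
      (1 / Td) * (-r - B * mu hn p v * q - ‖rest hn p‖ - B * (clip (2 * r) * N)) := by ring
  rw [e2]
  have e3 : -(‖p‖ / Td) = (1 / Td) * (-‖p‖) := by ring
  rw [e3]
  gcongr
  linarith

lemma mu_zero_of_small (hn : 0 < n) (p : EuclideanSpace ℝ (Fin n)) (v : EuclideanSpace ℝ (Fin m))
    (h : 3 * ‖v‖ ≤ ‖p‖) (hr : |co hn p| < 1 / 2) : mu hn p v = 0 := by
  unfold mu
  by_cases hv : ‖v‖ ≤ 1 / 2
  · rw [clip_of_nonpos (by linarith), zero_mul]
  · push Not at hv
    have := norm_le_co_rest hn p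
    rw [clip_of_nonpos (by linarith : 1 - ‖rest hn p‖ ≤ 0), mul_zero]

lemma driver_all (hT : 0 < Td) (hn : 0 < n) (B : ℝ) (hB : 0 ≤ B) (x : Hist Td n)
    (v : EuclideanSpace ℝ (Fin m)) (h : 3 * ‖v‖ ≤ ‖val hT x 0‖) :
    driverDeriv hT (rhs hT hn B) (Vf hT hn B) x v ≤ ((-(‖val hT x 0‖ / Td) : ℝ) : EReal) := by
  rcases le_total 0 (co hn (val hT x 0)) with h0 | h0
  · apply driver_main hT hn B hB x v h0
    by_cases h1 : 1 / 2 ≤ co hn (val hT x 0)
    · exact Or.inl h1
    · right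
      apply mu_zero_of_small hn _ _ h
      rw [abs_of_nonneg h0]
      exact not_le.1 h1
  · have h2 := driverDeriv_neg hT (rhs (m := m) hT hn B) (rhs_neg hT hn B) (Vf hT hn B)
      (Vf_neg hT hn B) x v
    rw [← h2]
    have h3 : ‖val hT x 0‖ = ‖val hT (-x) 0‖ := by rw [val_neg, norm_neg]
    rw [h3]
    rw [h3] at h
    have h4 : 0 ≤ co hn (val hT (-x) 0) := by rw [val_neg, co_neg]; linarith
    apply driver_main hT hn B hB (-x) v h4
    by_cases h1 : 1 / 2 ≤ co hn (val hT (-x) 0)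
    · exact Or.inl h1
    · right
      apply mu_zero_of_small hn _ _ h
      rw [abs_of_nonneg h4]
      exact not_le.1 h1

/-! ### Regularity along solutions -/

lemma limsup_le_aux (A C : ℝ → ℝ) (l : Filter ℝ) (h : Tendsto (fun t => A t - C t) l (𝓝 0)) :
    limsup (fun t => (A t : EReal)) l ≤ limsup (fun t => (C t : EReal)) l := by
  by_contra hcon
  push Not at hcon
  obtain ⟨c, hc1, hc2⟩ := EReal.lt_iff_exists_real_btwn.1 hcon
  obtain ⟨d, hd1, hd2⟩ := EReal.lt_iff_exists_real_btwn.1 hc1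
  rw [EReal.coe_lt_coe_iff] at hd2
  have h1 := Filter.eventually_lt_of_limsup_lt hd1
  have h2 := h.eventually (gt_mem_nhds (show (0 : ℝ) < c - d by linarith))
  have h3 : limsup (fun t => (A t : EReal)) l ≤ (c : EReal) := by
    refine Filter.limsup_le_of_le (by isBoundedDefault) ?_
    filter_upwards [h1, h2] with t ht1 ht2
    rw [EReal.coe_lt_coe_iff] at ht1
    rw [EReal.coe_le_coe_iff]
    linarith
  exact absurd hc2 (not_lt.2 h3)

lemma limsup_eq_aux (A C : ℝ → ℝ) (l : Filter ℝ) (h : Tendsto (fun t => A t - C t) l (𝓝 0)) :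
    limsup (fun t => (A t : EReal)) l = limsup (fun t => (C t : EReal)) l := by
  refine le_antisymm (limsup_le_aux A C l h) (limsup_le_aux C A l ?_)
  have := h.neg
  rw [neg_zero] at this
  refine this.congr fun t => ?_
  ring

lemma rhs_tendsto (hn : 0 < n) (B : ℝ) (u : ℝ → EuclideanSpace ℝ (Fin m))
    (y : ℝ → EuclideanSpace ℝ (Fin n)) (hyc : Continuous y) (t : ℝ)
    (hu : ContinuousWithinAt u (Set.Ici t) t) :
    Tendsto (fun τ => (1 / Td) • (-(y τ) -
        (B * mu hn (y τ) (u τ) * co hn (y (τ + -Td))) • e0 hn)) (𝓝[>] t)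
        (𝓝 ((1 / Td) • (-(y t) - (B * mu hn (y t) (u t) * co hn (y (t + -Td))) • e0 hn))) := by
  have hu' : Tendsto u (𝓝[>] t) (𝓝 (u t)) :=
    hu.mono_left (nhdsWithin_mono _ Set.Ioi_subset_Ici_self)
  have hy' : Tendsto y (𝓝[>] t) (𝓝 (y t)) := hyc.continuousAt.tendsto.mono_left
    nhdsWithin_le_nhds
  have hy'' : Tendsto (fun τ => y (τ + -Td)) (𝓝[>] t) (𝓝 (y (t + -Td))) :=
    (hyc.comp (continuous_id.add continuous_const)).continuousAt.tendsto.mono_left
      nhdsWithin_le_nhds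
  have hp : Tendsto (fun τ => (y τ, u τ)) (𝓝[>] t) (𝓝 (y t, u t)) := hy'.prodMk_nhds hu'
  have hmu0 := (mu_continuous (m := m) hn).tendsto (y t, u t)
  have hmu1 := hmu0.comp hp
  have hmu : Tendsto (fun τ => mu hn (y τ) (u τ)) (𝓝[>] t) (𝓝 (mu hn (y t) (u t))) := hmu1
  have hco : Tendsto (fun τ => co hn (y (τ + -Td))) (𝓝[>] t) (𝓝 (co hn (y (t + -Td)))) :=
    ((co_continuous hn).tendsto _).comp hy''
  exact ((hy'.neg).sub (((hmu.const_mul B).mul hco).smul_const _)).const_smul _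

/-- The trajectory as a continuous function on the line, with its properties on `[0, c]`. -/
lemma exists_traj (hT : 0 < Td) (hn : 0 < n) (B : ℝ) (hB : 0 ≤ B) (x0 : Hist Td n)
    (u : ℝ → EuclideanSpace ℝ (Fin m)) (b : EReal) (Φ : ℝ → Hist Td n)
    (hsol : IsSolution hT (rhs hT hn B) x0 u b Φ) (c : ℝ) (hc : 0 ≤ c) (hcb : (c : EReal) < b) :
    ∃ (y : ℝ → EuclideanSpace ℝ (Fin n)) (M C : ℝ), Continuous y ∧ 0 ≤ M ∧ 0 ≤ C ∧
      (∀ t ∈ Set.Icc 0 c, ∀ s ∈ Set.Icc (-Td) 0, val hT (Φ t) s = y (t + s)) ∧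
      (∀ t ∈ Set.Icc (-Td) c, ‖y t‖ ≤ M) ∧ (∀ t ∈ Set.Icc 0 c, ‖Φ t‖ ≤ M) ∧
      (∀ t ∈ Set.Icc 0 c, ∀ t' ∈ Set.Icc 0 c, ‖y t - y t'‖ ≤ C * |t - t'|) ∧
      (∀ᵐ t : ℝ, t ∈ Set.Ioo 0 c →
        HasDerivWithinAt y (rhs hT hn B (Φ t) (u t)) (Set.Ici t) t) ∧
      (∀ t ∈ Set.Ico 0 c, ContinuousWithinAt u (Set.Ici t) t →
        HasDerivWithinAt y (rhs hT hn B (Φ t) (u t)) (Set.Ici t) t) := by
  have hlt : ∀ t ∈ Set.Icc 0 c, (t : EReal) < b := fun t ht =>
    lt_of_le_of_lt (EReal.coe_le_coe_iff.2 ht.2) hcb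
  set g : ℝ → EuclideanSpace ℝ (Fin n) := fun τ => rhs hT hn B (Φ τ) (u τ) with hg
  have hgi : IntervalIntegrable g volume 0 c := hsol.integrable c hc hcb
  set G : ℝ → EuclideanSpace ℝ (Fin n) := Set.indicator (Set.Ioc 0 c) g with hG
  have hGi : Integrable G volume :=
    ((intervalIntegrable_iff_integrableOn_Ioc_of_le hc).1 hgi).integrable_indicator
      measurableSet_Ioc
  set y : ℝ → EuclideanSpace ℝ (Fin n) := fun t => val hT x0 (min t 0) + ∫ τ in (0 : ℝ)..t, G τ
    with hy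
  have hprim : Continuous (fun t => ∫ τ in (0 : ℝ)..t, G τ) :=
    intervalIntegral.continuous_primitive (fun a b => hGi.intervalIntegrable) 0
  have hyc : Continuous y :=
    ((val_continuous hT x0).comp (continuous_id.min continuous_const)).add hprim
  have hy_nonneg : ∀ t ∈ Set.Icc 0 c, y t = val hT (Φ t) 0 := by
    intro t ht
    rw [hsol.eqn t ht.1 (hlt t ht)]
    simp only [hy]
    rw [min_eq_right ht.1]
    congr 1
    apply intervalIntegral.integral_congr_ae
    refine Eventually.of_forall fun τ hτ => ?_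
    rw [Set.uIoc_of_le ht.1] at hτ
    exact Set.indicator_of_mem (show τ ∈ Set.Ioc 0 c from ⟨hτ.1, hτ.2.trans ht.2⟩) g
  have hy_neg : ∀ t ≤ 0, y t = val hT x0 t := by
    intro t ht
    simp only [hy]
    rw [min_eq_left ht]
    have : ∫ τ in (0 : ℝ)..t, G τ = 0 := by
      apply intervalIntegral.integral_zero_ae
      refine Eventually.of_forall fun τ hτ => ?_
      rw [Set.uIoc_of_ge ht] at hτ
      exact Set.indicator_of_notMem (fun h => absurd h.1 (not_lt.2 hτ.2)) g
    rw [this, add_zero]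
  have hval : ∀ t ∈ Set.Icc 0 c, ∀ s ∈ Set.Icc (-Td) 0, val hT (Φ t) s = y (t + s) := by
    intro t ht s hs
    rw [hsol.shift t ht.1 (hlt t ht) s hs]
    split_ifs with h
    · exact (hy_nonneg (t + s) ⟨h, by linarith [hs.2, ht.2]⟩).symm
    · exact (hy_neg (t + s) (not_le.1 h).le).symm
  obtain ⟨M, hM⟩ := (isCompact_Icc (a := -Td) (b := c)).exists_bound_of_continuousOn
    hyc.continuousOn
  have hM0 : 0 ≤ M := (norm_nonneg _).trans (hM 0 ⟨by linarith, hc⟩)
  have hΦM : ∀ t ∈ Set.Icc 0 c, ‖Φ t‖ ≤ M := by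
    intro t ht
    apply norm_le_of_val hT _ _ hM0
    intro s hs
    rw [hval t ht s hs]
    exact hM _ ⟨by linarith [hs.1, ht.1], by linarith [hs.2, ht.2]⟩
  set C : ℝ := (1 / Td) * ((1 + B) * M) with hC
  have hC0 : 0 ≤ C := by positivity
  have hGC : ∀ τ, ‖G τ‖ ≤ C := by
    intro τ
    by_cases hτ : τ ∈ Set.Ioc 0 c
    · rw [hG, Set.indicator_of_mem hτ]
      refine (rhs_norm_le hT hn B hB _ _).trans ?_
      have := hΦM τ ⟨hτ.1.le, hτ.2⟩
      rw [hC]
      gcongr
    · rw [hG, Set.indicator_of_notMem hτ, norm_zero]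
      exact hC0
  refine ⟨y, M, C, hyc, hM0, hC0, hval, hM, hΦM, ?_, ?_, ?_⟩
  · intro t ht t' ht'
    simp only [hy]
    rw [min_eq_right ht.1, min_eq_right ht'.1, add_sub_add_left_eq_sub,
      intervalIntegral.integral_interval_sub_left hGi.intervalIntegrable hGi.intervalIntegrable]
    exact intervalIntegral.norm_integral_le_of_norm_le_const fun τ _ => hGC τ
  · have h1 := LocallyIntegrable.ae_hasDerivAt_integral hGi.locallyIntegrable
    filter_upwards [h1] with t ht htc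
    have h2 := ht 0
    rw [hG, Set.indicator_of_mem (show t ∈ Set.Ioc 0 c from ⟨htc.1, htc.2.le⟩)] at h2
    have h3 : HasDerivAt (fun s => val hT x0 0 + ∫ τ in (0 : ℝ)..s, G τ) (g t) t :=
      h2.const_add _
    refine (h3.congr_of_eventuallyEq ?_).hasDerivWithinAt
    filter_upwards [lt_mem_nhds htc.1] with s hs
    simp only [hy]
    rw [min_eq_right hs.le]
  · intro t ht hu
    have hyt : ∀ τ ∈ Set.Icc 0 c, g τ =
        (1 / Td) • (-(y τ) - (B * mu hn (y τ) (u τ) * co hn (y (τ + -Td))) • e0 hn) := by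
      intro τ hτ
      simp only [hg]
      unfold rhs
      rw [hval τ hτ 0 ⟨by linarith, le_rfl⟩, hval τ hτ (-Td) ⟨le_rfl, by linarith⟩, add_zero]
    have hcont := rhs_tendsto (Td := Td) hn B u y hyc t hu
    have hG' : Tendsto G (𝓝[>] t) (𝓝 (g t)) := by
      rw [hyt t ⟨ht.1, ht.2.le⟩]
      refine hcont.congr' ?_
      have e1 : ∀ᶠ τ in 𝓝[>] t, τ < c := (gt_mem_nhds ht.2).filter_mono nhdsWithin_le_nhds
      filter_upwards [e1, self_mem_nhdsWithin] with τ h1 h2
      have h2' : t < τ := h2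
      rw [← hyt τ ⟨by linarith [ht.1], h1.le⟩, hG,
        Set.indicator_of_mem (show τ ∈ Set.Ioc 0 c from ⟨by linarith [ht.1], h1.le⟩)]
    have h3 : HasDerivWithinAt (fun s => ∫ τ in (0 : ℝ)..s, G τ) (g t) (Set.Ici t) t :=
      intervalIntegral.integral_hasDerivWithinAt_of_tendsto_ae_right
        (hGi.intervalIntegrable) (hGi.aestronglyMeasurable.stronglyMeasurableAtFilter)
        (hG'.mono_left inf_le_left)
    have h4 : HasDerivWithinAt (fun s => val hT x0 0 + ∫ τ in (0 : ℝ)..s, G τ) (g t)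
      (Set.Ici t) t := h3.const_add _
    refine h4.congr ?_ ?_
    · intro s hs
      have hs' : t ≤ s := hs
      simp only [hy]
      rw [min_eq_right (ht.1.trans hs')]
    · simp only [hy]
      rw [min_eq_right ht.1]

lemma window_lip (F : ℝ → ℝ) (hF : Continuous F) (M c Td : ℝ) (hT : 0 < Td)
    (hM : ∀ s ∈ Set.Icc (-Td) c, |F s| ≤ M) (t t' : ℝ) (ht : t ∈ Set.Icc 0 c)
    (ht' : t' ∈ Set.Icc 0 c) :
    |(∫ s in (-Td)..0, F (t + s)) - ∫ s in (-Td)..0, F (t' + s)| ≤ 2 * M * |t - t'| := by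
  have e : ∀ r : ℝ, ∫ s in (-Td)..0, F (r + s) = ∫ s in (r + -Td)..r, F s := by
    intro r
    rw [intervalIntegral.integral_comp_add_left (fun s => F s) r, add_zero]
  rw [e, e, intervalIntegral.integral_interval_sub_interval_comm (hF.intervalIntegrable _ _)
    (hF.intervalIntegrable _ _) (hF.intervalIntegrable _ _)]
  have b1 : ‖∫ s in (t + -Td)..(t' + -Td), F s‖ ≤ M * |(t' + -Td) - (t + -Td)| := by
    apply intervalIntegral.norm_integral_le_of_norm_le_const
    intro s hs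
    rw [Real.norm_eq_abs]
    apply hM
    have := Set.uIoc_subset_uIcc hs
    rw [Set.mem_uIcc] at this
    rcases this with h | h
    · exact ⟨by linarith [h.1, ht.1], by linarith [h.2, ht'.2]⟩
    · exact ⟨by linarith [h.1, ht'.1], by linarith [h.2, ht.2]⟩
  have b2 : ‖∫ s in t..t', F s‖ ≤ M * |t' - t| := by
    apply intervalIntegral.norm_integral_le_of_norm_le_const
    intro s hs
    rw [Real.norm_eq_abs]
    apply hM
    have := Set.uIoc_subset_uIcc hs
    rw [Set.mem_uIcc] at this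
    rcases this with h | h
    · exact ⟨by linarith [h.1, ht.1], by linarith [h.2, ht'.2]⟩
    · exact ⟨by linarith [h.1, ht'.1], by linarith [h.2, ht.2]⟩
  have e2 : (t' + -Td) - (t + -Td) = t' - t := by ring
  rw [e2] at b1
  rw [Real.norm_eq_abs] at b1 b2
  have e3 : |t - t'| = |t' - t| := abs_sub_comm _ _
  rw [e3]
  refine (abs_sub _ _).trans ?_
  linarith

/-- The Dini derivative along a trajectory equals the Driver derivative wherever the trajectory has
the right derivative prescribed by the equation. -/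
lemma dini_eq (hT : 0 < Td) (hn : 0 < n) (B : ℝ) (hB : 0 ≤ B)
    (v : EuclideanSpace ℝ (Fin m)) (Φ : ℝ → Hist Td n) (c : ℝ)
    (y : ℝ → EuclideanSpace ℝ (Fin n)) (M : ℝ) (hM0 : 0 ≤ M)
    (hval : ∀ t ∈ Set.Icc 0 c, ∀ s ∈ Set.Icc (-Td) 0, val hT (Φ t) s = y (t + s))
    (hΦM : ∀ t ∈ Set.Icc 0 c, ‖Φ t‖ ≤ M) (t : ℝ) (ht : t ∈ Set.Ico 0 c)
    (hd : HasDerivWithinAt y (rhs hT hn B (Φ t) v) (Set.Ici t) t) :
    upperDini (fun s => Vf hT hn B (Φ s)) t =
      driverDeriv hT (rhs hT hn B) (Vf hT hn B) (Φ t) v := by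
  unfold upperDini driverDeriv
  apply limsup_eq_aux
  set f := rhs hT hn B (Φ t) v with hf
  set L : ℝ := 3 + 4 * B * M + 2 * B with hL
  have hL0 : 0 < L := by positivity
  rw [Metric.tendsto_nhds]
  intro ε hε
  have hlo := (hasDerivWithinAt_iff_isLittleO.1 hd).def (show 0 < ε / (2 * L) by positivity)
  rw [Metric.nhdsWithin_basis_ball.eventually_iff] at hlo
  obtain ⟨δ, hδ, hloδ⟩ := hlo
  have e1 : ∀ᶠ h in 𝓝[>] (0 : ℝ), h < δ := (gt_mem_nhds hδ).filter_mono nhdsWithin_le_nhds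
  have e2 : ∀ᶠ h in 𝓝[>] (0 : ℝ), h < c - t :=
    (gt_mem_nhds (by linarith [ht.2])).filter_mono nhdsWithin_le_nhds
  filter_upwards [e1, e2, self_mem_nhdsWithin] with h hh1 hh2 hh0
  have hh0' : (0 : ℝ) < h := hh0
  have htI : t ∈ Set.Icc 0 c := ⟨ht.1, ht.2.le⟩
  have hthI : t + h ∈ Set.Icc 0 c := ⟨by linarith [ht.1], by linarith⟩
  set z := driverShift hT (rhs hT hn B) h (Φ t) v with hz
  have hdist : ‖Φ (t + h) - z‖ ≤ ε / (2 * L) * h := by
    apply norm_le_of_val hT _ _ (by positivity)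
    intro s hs
    have hv : val hT (Φ (t + h) - z) s = val hT (Φ (t + h)) s - val hT z s := rfl
    rw [hv, hval (t + h) hthI s hs, hz, val_driverShift hT _ h (Φ t) v s hs]
    by_cases hhs : h + s ≤ 0
    · rw [max_eq_left hhs, zero_smul, add_zero,
        hval t htI (h + s) ⟨by linarith [hs.1], hhs⟩]
      have : t + h + s = t + (h + s) := by ring
      rw [this, sub_self, norm_zero]
      positivity
    · push Not at hhs
      rw [max_eq_right hhs.le, val_of_nonneg hT _ _ hhs.le,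
        hval t htI 0 ⟨by linarith, le_rfl⟩, add_zero]
      have h5 := hloδ (x := t + (h + s)) ⟨by
        rw [Metric.mem_ball, Real.dist_eq]
        have : t + (h + s) - t = h + s := by ring
        rw [this, abs_of_pos hhs]
        linarith [hs.2], by
        rw [Set.mem_Ici]
        linarith⟩
      have h6 : t + (h + s) - t = h + s := by ring
      rw [h6, Real.norm_eq_abs, abs_of_pos hhs] at h5
      have h7 : t + h + s = t + (h + s) := by ring
      rw [h7]
      have h8 : y (t + (h + s)) - (y t + (h + s) • f) =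
        y (t + (h + s)) - y t - (h + s) • f := by abel
      rw [h8]
      refine h5.trans ?_
      have : h + s ≤ h := by linarith [hs.2]
      gcongr
  have hVd : |Vf hT hn B (Φ (t + h)) - Vf hT hn B z| ≤ ε / 2 * h := by
    refine (Vf_lip hT hn B hB M _ _ (hΦM _ hthI)).trans ?_
    calc L * ‖Φ (t + h) - z‖ ≤ L * (ε / (2 * L) * h) := by gcongr
      _ = ε / 2 * h := by field_simp
  rw [Real.dist_eq, sub_zero]
  have e3 : (Vf hT hn B (Φ (t + h)) - Vf hT hn B (Φ t)) / h -
      (Vf hT hn B z - Vf hT hn B (Φ t)) / h =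
      (Vf hT hn B (Φ (t + h)) - Vf hT hn B z) / h := by ring
  rw [e3, abs_div, abs_of_pos hh0', div_lt_iff₀ hh0']
  refine lt_of_le_of_lt hVd ?_
  have : 0 < ε * h := by positivity
  linarith

lemma regular_all (hT : 0 < Td) (hn : 0 < n) (B : ℝ) (hB : 0 ≤ B) :
    RegularAlong (m := m) hT (rhs hT hn B) (Vf hT hn B) := by
  intro x0 u b Φ _ hsol
  refine ⟨?_, ?_, ?_⟩
  · intro c hc hcb
    obtain ⟨y, M, C, hyc, hM0, hC0, hval, hyM, hΦM, hylip, _, _⟩ :=
      exists_traj hT hn B hB x0 u b Φ hsol c hc hcb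
    have hBT : 0 ≤ B / Td := by positivity
    have hW : ∀ t ∈ Set.Icc 0 c, ∀ t' ∈ Set.Icc 0 c,
        |Vf hT hn B (Φ t) - Vf hT hn B (Φ t')| ≤
          (3 * C + (B / Td) * (4 * (Td * M) * C + 4 * M)) * |t - t'| := by
      intro t ht t' ht'
      unfold Vf
      have h1 : |Jm hT hn (Φ t)| ≤ Td * M := (Jm_abs_le hT hn _).trans (by
        have := hΦM t ht
        gcongr)
      have h2 : |Jm hT hn (-(Φ t))| ≤ Td * M := (Jm_abs_le hT hn _).trans (by
        rw [norm_neg]
        have := hΦM t ht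
        gcongr)
      refine (W_lip hT hn B hB _ _ _ _ _ _ (Td * M) h1 h2).trans ?_
      have h3 : ‖val hT (Φ t) 0 - val hT (Φ t') 0‖ ≤ C * |t - t'| := by
        rw [hval t ht 0 ⟨by linarith, le_rfl⟩, hval t' ht' 0 ⟨by linarith, le_rfl⟩, add_zero,
          add_zero]
        exact hylip t ht t' ht'
      have h4 : |Jm hT hn (Φ t) - Jm hT hn (Φ t')| ≤ 2 * M * |t - t'| := by
        have key : ∀ r ∈ Set.Icc 0 c, Jm hT hn (Φ r) =
            ∫ s in (-Td)..0, max 0 (-(co hn (y (r + s)))) := by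
          intro r hr
          unfold Jm
          apply intervalIntegral.integral_congr
          intro s hs
          rw [Set.uIcc_of_le (by linarith)] at hs
          simp only
          rw [hval r hr s hs]
        rw [key t ht, key t' ht']
        refine window_lip (fun s => max 0 (-(co hn (y s))))
          (continuous_const.max ((co_continuous hn).comp hyc).neg) M c Td hT ?_ t t' ht ht'
        intro s hs
        rw [abs_of_nonneg (le_max_left _ _)]
        exact max_le hM0 ((neg_le_abs _).trans ((co_abs_le hn _).trans (hyM s hs)))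
      have h5 : |Jm hT hn (-(Φ t)) - Jm hT hn (-(Φ t'))| ≤ 2 * M * |t - t'| := by
        have key : ∀ r ∈ Set.Icc 0 c, Jm hT hn (-(Φ r)) =
            ∫ s in (-Td)..0, max 0 (-(co hn (-(y (r + s))))) := by
          intro r hr
          unfold Jm
          apply intervalIntegral.integral_congr
          intro s hs
          rw [Set.uIcc_of_le (by linarith)] at hs
          simp only
          rw [val_neg, hval r hr s hs]
        rw [key t ht, key t' ht']
        refine window_lip (fun s => max 0 (-(co hn (-(y s)))))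
          (continuous_const.max ((co_continuous hn).comp hyc.neg).neg) M c Td hT ?_ t t' ht ht'
        intro s hs
        rw [abs_of_nonneg (le_max_left _ _)]
        refine max_le hM0 ((neg_le_abs _).trans ((co_abs_le hn _).trans ?_))
        rw [norm_neg]
        exact hyM s hs
      calc 3 * ‖val hT (Φ t) 0 - val hT (Φ t') 0‖ + B / Td *
            (4 * (Td * M) * ‖val hT (Φ t) 0 - val hT (Φ t') 0‖ +
              |Jm hT hn (Φ t) - Jm hT hn (Φ t')| + |Jm hT hn (-(Φ t)) - Jm hT hn (-(Φ t'))|)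
          ≤ 3 * (C * |t - t'|) + B / Td * (4 * (Td * M) * (C * |t - t'|) + 2 * M * |t - t'| +
              2 * M * |t - t'|) := by gcongr
        _ = _ := by ring
    apply LipschitzOnWith.absolutelyContinuousOnInterval
      (K := Real.toNNReal (3 * C + (B / Td) * (4 * (Td * M) * C + 4 * M)))
    apply LipschitzOnWith.of_dist_le_mul
    intro t ht t' ht'
    rw [Set.uIcc_of_le hc] at ht ht'
    rw [Real.dist_eq, Real.dist_eq, Real.coe_toNNReal _ (by positivity)]
    exact hW t ht t' ht'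
  · have hq : ∀ q : ℚ, ∀ᵐ t : ℝ, 0 ≤ q → (((q : ℝ) : ℝ) : EReal) < b → t ∈ Set.Ioo 0 (q : ℝ) →
        upperDini (fun s => Vf hT hn B (Φ s)) t =
          driverDeriv hT (rhs hT hn B) (Vf hT hn B) (Φ t) (u t) := by
      intro q
      by_cases hq0 : (0 : ℚ) ≤ q
      swap
      · exact Eventually.of_forall fun t h => absurd h hq0
      by_cases hqb : (((q : ℝ) : ℝ) : EReal) < b
      swap
      · exact Eventually.of_forall fun t _ h => absurd h hqb
      have hc : (0 : ℝ) ≤ q := by exact_mod_cast hq0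
      obtain ⟨y, M, C, hyc, hM0, hC0, hval, hyM, hΦM, hylip, hder, _⟩ :=
        exists_traj hT hn B hB x0 u b Φ hsol q hc hqb
      filter_upwards [hder] with t htd _ _ ht
      exact dini_eq hT hn B hB (u t) Φ q y M hM0 hval hΦM t ⟨ht.1.le, ht.2⟩ (htd ht)
    have hall := ae_all_iff.2 hq
    have hne : ∀ᵐ t : ℝ, t ≠ 0 := by
      simp [ae_iff, measure_singleton]
    filter_upwards [hall, hne] with t ht htne ht0 htb
    obtain ⟨q, hq1, hq2⟩ := EReal.lt_iff_exists_rat_btwn.1 htb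
    rw [EReal.coe_lt_coe_iff] at hq1
    have htpos : 0 < t := lt_of_le_of_ne ht0 (Ne.symm htne)
    exact ht q (by
      have : (0 : ℝ) < q := htpos.trans hq1
      exact_mod_cast this.le) hq2 ⟨htpos, hq1⟩
  · intro t ht0 htb hu
    obtain ⟨c, hc1, hc2⟩ := EReal.lt_iff_exists_real_btwn.1 htb
    rw [EReal.coe_lt_coe_iff] at hc1
    obtain ⟨y, M, C, hyc, hM0, hC0, hval, hyM, hΦM, hylip, _, hder⟩ :=
      exists_traj hT hn B hB x0 u b Φ hsol c (ht0.trans hc1.le) hc2
    exact dini_eq hT hn B hB (u t) Φ c y M hM0 hval hΦM t ⟨ht0, hc1⟩ (hder t ⟨ht0, hc1⟩ hu)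

/-! ### An explicit unbounded solution -/

/-- frequency -/
noncomputable def om : ℝ := 3 * Real.pi / 4

/-- gain of the delayed term -/
noncomputable def gain : ℝ := Real.exp (om - 1) * om * Real.sqrt 2

lemma om_gt_one : 1 < om := by
  unfold om
  linarith [Real.pi_gt_three]

lemma gain_pos : 0 < gain := by
  unfold gain
  have := om_gt_one
  positivity

/-- the growing oscillation -/
noncomputable def Y (Td : ℝ) (t : ℝ) : ℝ := Real.exp ((om - 1) * (t / Td)) * Real.cos (om * (t / Td))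

lemma Y_continuous (Td : ℝ) : Continuous (Y Td) := by unfold Y; fun_prop

lemma cos_om : Real.cos om = -(Real.sqrt 2 / 2) := by
  have : om = Real.pi - Real.pi / 4 := by unfold om; ring
  rw [this, Real.cos_pi_sub, Real.cos_pi_div_four]

lemma sin_om : Real.sin om = Real.sqrt 2 / 2 := by
  have : om = Real.pi - Real.pi / 4 := by unfold om; ring
  rw [this, Real.sin_pi_sub, Real.sin_pi_div_four]

lemma Y_hasDerivAt (hT : 0 < Td) (t : ℝ) :
    HasDerivAt (Y Td) ((1 / Td) * (-(Y Td t) - gain * Y Td (t - Td))) t := by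
  have h1 : HasDerivAt (fun t : ℝ => t / Td) (1 / Td) t := (hasDerivAt_id t).div_const Td
  have h2 : HasDerivAt (fun t : ℝ => Real.exp ((om - 1) * (t / Td)))
      (Real.exp ((om - 1) * (t / Td)) * ((om - 1) * (1 / Td))) t := (h1.const_mul _).exp
  have h3 : HasDerivAt (fun t : ℝ => Real.cos (om * (t / Td)))
      (-Real.sin (om * (t / Td)) * (om * (1 / Td))) t := (h1.const_mul _).cos
  have h4 := h2.mul h3
  refine h4.congr_deriv ?_
  unfold Y gain
  have e1 : (t - Td) / Td = t / Td - 1 := by field_simp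
  have e2 : (om - 1) * (t / Td - 1) = (om - 1) * (t / Td) - (om - 1) := by ring
  have e3 : om * (t / Td - 1) = om * (t / Td) - om := by ring
  rw [e1, e2, e3, Real.exp_sub ((om - 1) * (t / Td)) (om - 1), Real.cos_sub, cos_om, sin_om]
  have h5 : Real.exp (om - 1) ≠ 0 := (Real.exp_pos _).ne'
  have h6 : Real.sqrt 2 * Real.sqrt 2 = 2 := Real.mul_self_sqrt (by norm_num)
  set E := Real.exp ((om - 1) * (t / Td))
  set c := Real.cos (om * (t / Td))
  set s := Real.sin (om * (t / Td))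
  have e4 : Real.exp (om - 1) * om * Real.sqrt 2 *
      (E / Real.exp (om - 1) * (c * -(Real.sqrt 2 / 2) + s * (Real.sqrt 2 / 2))) =
      om * E * (Real.sqrt 2 * Real.sqrt 2) / 2 * (s - c) := by
    field_simp
    ring
  rw [e4, h6]
  ring

/-- the state trajectory of the growing oscillation -/
noncomputable def Psi (Td : ℝ) (hn : 0 < n) (t : ℝ) : Hist Td n :=
  ⟨fun s => Y Td (t + (s : ℝ)) • e0 hn, by
    have := Y_continuous Td
    fun_prop⟩

lemma val_Psi (hT : 0 < Td) (hn : 0 < n) (t s : ℝ) (hs : s ∈ Set.Icc (-Td) 0) :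
    val hT (Psi Td hn t) s = Y Td (t + s) • e0 hn := by
  unfold val
  rw [Set.projIcc_of_mem _ hs]
  rfl

lemma rhs_Psi (hT : 0 < Td) (hn : 0 < n) (v : EuclideanSpace ℝ (Fin m)) (hv : ‖v‖ = 1) (t : ℝ) :
    rhs hT hn gain (Psi Td hn t) v =
      ((1 / Td) * (-(Y Td t) - gain * Y Td (t - Td))) • e0 hn := by
  unfold rhs
  rw [val_Psi hT hn t 0 ⟨by linarith, le_rfl⟩, val_Psi hT hn t (-Td) ⟨le_rfl, by linarith⟩,
    add_zero, co_smul, co_e0, mul_one]
  have hmu : mu hn (Y Td t • e0 hn) v = 1 := by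
    unfold mu
    rw [rest_smul, rest_e0, smul_zero, norm_zero, hv, clip_of_one_le (by norm_num),
      clip_of_one_le (by norm_num), mul_one]
  rw [hmu, mul_one, ← sub_eq_add_neg, ← neg_smul, ← sub_smul, smul_smul]

lemma Psi_solution (hT : 0 < Td) (hn : 0 < n) (v : EuclideanSpace ℝ (Fin m)) (hv : ‖v‖ = 1) :
    IsSolution hT (rhs hT hn gain) (Psi Td hn 0) (fun _ => v) ⊤ (Psi Td hn) where
  init := rfl
  shift := by
    intro t ht _ s hs
    rw [val_Psi hT hn t s hs]
    split_ifs with h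
    · rw [val_Psi hT hn (t + s) 0 ⟨by linarith, le_rfl⟩, add_zero]
    · rw [val_Psi hT hn 0 (t + s) ⟨by linarith [hs.1], (not_le.1 h).le⟩, zero_add]
  integrable := by
    intro t ht _
    simp only [rhs_Psi hT hn v hv]
    apply Continuous.intervalIntegrable
    have := Y_continuous Td
    fun_prop
  eqn := by
    intro t ht _
    simp only [rhs_Psi hT hn v hv]
    rw [intervalIntegral.integral_smul_const, intervalIntegral.integral_eq_sub_of_hasDerivAt
      (f := Y Td) (fun s _ => Y_hasDerivAt hT s), val_Psi hT hn t 0 ⟨by linarith, le_rfl⟩,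
      val_Psi hT hn 0 0 ⟨by linarith, le_rfl⟩, add_zero, add_zero, ← add_smul]
    · congr 1
      ring
    · apply Continuous.intervalIntegrable
      have := Y_continuous Td
      fun_prop

lemma Psi_values (hT : 0 < Td) (hn : 0 < n) (k : ℕ) :
    ‖val hT (Psi Td hn (8 * k * Td / 3)) 0‖ = Real.exp ((om - 1) * (8 / 3) * k) := by
  have h9 : Y Td (8 * k * Td / 3) = Real.exp ((om - 1) * (8 / 3) * k) := by
    unfold Y
    have e1 : 8 * (k : ℝ) * Td / 3 / Td = 8 * k / 3 := by field_simp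
    rw [e1]
    have e2 : om * (8 * k / 3) = k * (2 * Real.pi) := by unfold om; ring
    rw [e2, Real.cos_nat_mul_two_pi, mul_one]
    congr 1
    ring
  rw [val_Psi hT hn _ 0 ⟨by linarith, le_rfl⟩, add_zero, norm_smul, norm_e0, mul_one, h9,
    Real.norm_eq_abs, abs_of_pos (Real.exp_pos _)]

/-- The explicit solution is unbounded. -/
lemma Psi_unbounded (hT : 0 < Td) (hn : 0 < n) (K : ℝ) :
    ∃ t : ℝ≥0, K < ‖val hT (Psi Td hn t) 0‖ := by
  have hpos : 0 < (om - 1) * (8 / 3) := by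
    have := om_gt_one
    have : 0 < om - 1 := by linarith
    positivity
  obtain ⟨k, hk⟩ := exists_nat_gt (K / ((om - 1) * (8 / 3)))
  rw [div_lt_iff₀ hpos] at hk
  refine ⟨⟨8 * k * Td / 3, by positivity⟩, ?_⟩
  have h8 : K < ‖val hT (Psi Td hn (8 * k * Td / 3)) 0‖ := by
    rw [Psi_values]
    have h11 := Real.add_one_le_exp ((om - 1) * (8 / 3) * k)
    linarith
  exact h8

/-- A bounded input together with an unbounded global solution excludes ISS. -/
lemma not_ISS_of_unbounded (hT : 0 < Td)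
    (f : Hist Td n → EuclideanSpace ℝ (Fin m) → EuclideanSpace ℝ (Fin n))
    (v : EuclideanSpace ℝ (Fin m)) (Φ : ℝ → Hist Td n)
    (hΦ : IsSolution hT f (Φ 0) (fun _ => v) ⊤ Φ)
    (hunb : ∀ K : ℝ, ∃ t : ℝ≥0, K < ‖val hT (Φ t) 0‖) : ¬ ISS hT f := by
  rintro ⟨β, γ, hβ, _, h⟩
  have hmem : MemLp (fun _ : ℝ => v) ⊤ (volume.restrict (Set.Ici (0 : ℝ))) := memLp_top_const v
  have h1 := (h (Φ 0) (fun _ => v) hmem).2 Φ hΦ
  obtain ⟨t, ht⟩ := hunb ((β ‖Φ 0‖₊ 0 +
    γ (eLpNorm (fun _ : ℝ => v) ⊤ (volume.restrict (Set.Ici (0 : ℝ)))).toNNReal : ℝ≥0) : ℝ)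
  have h3 := h1 t
  have h4 : β ‖Φ 0‖₊ t ≤ β ‖Φ 0‖₊ 0 := (hβ.2.2 _).1 bot_le
  have h5 : ‖val hT (Φ t) 0‖₊ ≤ β ‖Φ 0‖₊ 0 +
    γ (eLpNorm (fun _ : ℝ => v) ⊤ (volume.restrict (Set.Ici (0 : ℝ)))).toNNReal :=
    h3.trans (by gcongr)
  have h6 : ‖val hT (Φ t) 0‖ ≤ ((β ‖Φ 0‖₊ 0 +
    γ (eLpNorm (fun _ : ℝ => v) ⊤ (volume.restrict (Set.Ici (0 : ℝ)))).toNNReal : ℝ≥0) : ℝ) := by
    exact_mod_cast h5
  exact absurd ht (not_lt.2 h6)

/-- **Main theorem.** For every delay `Td > 0` and all dimensions `n, m ≥ 1` there are a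
right-hand side `f` satisfying the standing assumptions and a continuous functional `V` satisfying
the regularity condition, the sandwich bound and the relaxed dissipation condition, such that the
system is not ISS; moreover for some constant input it has a global solution whose values are
unbounded. -/
theorem result : ∀ (Td : ℝ) (hT : 0 < Td) (n m : ℕ), 0 < n → 0 < m →
    ∃ (f : Hist Td n → EuclideanSpace ℝ (Fin m) → EuclideanSpace ℝ (Fin n))
      (V : Hist Td n → ℝ), AdmissibleRHS f ∧ RelaxedLK hT f V ∧ ¬ ISS hT f ∧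
        ∃ (v : EuclideanSpace ℝ (Fin m)) (Φ : ℝ → Hist Td n),
          IsSolution hT f (Φ 0) (fun _ => v) ⊤ Φ ∧ ∀ K : ℝ, ∃ t : ℝ≥0, K < ‖val hT (Φ t) 0‖ := by
  intro Td hT n m hn hm
  have hsol := Psi_solution hT hn (e0 hm) (norm_e0 hm)
  refine ⟨rhs hT hn gain, Vf hT hn gain, rhs_admissible hT hn gain gain_pos.le, ?_,
    not_ISS_of_unbounded hT _ (e0 hm) (Psi Td hn) hsol (Psi_unbounded hT hn),
    e0 hm, Psi Td hn, hsol, Psi_unbounded hT hn⟩
  refine ⟨Vf_continuous hT hn gain, ?_, regular_all hT hn gain gain_pos.le, ?_, ?_⟩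
  · intro x
    exact (norm_nonneg _).trans (Vf_lower hT hn gain gain_pos.le x)
  · have hc : 0 < 3 + 2 * gain := by linarith [gain_pos]
    refine ⟨fun r => r, fun r => Real.toNNReal (3 + 2 * gain) * r, ?_, ?_, ?_⟩
    · exact ⟨⟨continuous_id, strictMono_id, rfl⟩, tendsto_id⟩
    · have hc' : 0 < Real.toNNReal (3 + 2 * gain) := Real.toNNReal_pos.2 hc
      refine ⟨⟨by fun_prop, ?_, mul_zero _⟩, ?_⟩
      · intro a b hab
        exact mul_lt_mul_of_pos_left hab hc'
      · exact Tendsto.const_mul_atTop hc' tendsto_id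
    · intro x
      refine ⟨Vf_lower hT hn gain gain_pos.le x, ?_⟩
      rw [NNReal.coe_mul, Real.coe_toNNReal _ hc.le]
      exact Vf_upper hT hn gain gain_pos.le x
  · have hc : 0 < 1 / Td := by positivity
    have hc' : 0 < Real.toNNReal (1 / Td) := Real.toNNReal_pos.2 hc
    refine ⟨fun r => Real.toNNReal (1 / Td) * r, fun r => 3 * r, ?_, ?_, ?_⟩
    · refine ⟨⟨by fun_prop, ?_, mul_zero _⟩, ?_⟩
      · intro a b hab
        exact mul_lt_mul_of_pos_left hab hc'
      · exact Tendsto.const_mul_atTop hc' tendsto_id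
    · refine ⟨by fun_prop, ?_, mul_zero _⟩
      intro a b hab
      exact mul_lt_mul_of_pos_left hab (by norm_num)
    · intro x v h
      have h' : 3 * ‖v‖ ≤ ‖val hT x 0‖ := by exact_mod_cast h
      have h1 := driver_all hT hn gain gain_pos.le x v h'
      have e : -(((Real.toNNReal (1 / Td) * ‖val hT x 0‖₊ : ℝ≥0) : ℝ)) = -(‖val hT x 0‖ / Td) := by
        rw [NNReal.coe_mul, Real.coe_toNNReal _ hc.le, coe_nnnorm]
        ring
      rw [e]
      exact h1

end Pool.Agent.Results.MP_9da05b_an.PointwiseLKFails
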